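import Mathlib
import Pool.Agent.R987.BKR

/-!
# All binary-associated BKR products of `r` sets can be pairwise distinct, for every `r`

For three sets `G1`, `G2`, `G3 ⊆ {0,1}^3` the products `(G1 G2) G3` and `G1 (G2 G3)` are nonempty
and different. The whole space is neutral for the BKR product, so that a word in which only the
letters `a < b < c` are not the whole space has one of these two values, according to whether the
bracketing joins `a` and `b` first or `b` and `c` first. Different bracketings differ in this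
respect for some triple `(a, b, c)`; a product construction treats all triples at the same time.
-/

set_option autoImplicit false

open Set

namespace Pool.Agent.Results.MP_890654_pr.AllBracketingsDistinct

open Pool.Agent.R987.BKR

/-- At most one coordinate is `1`. -/
def G1 : Set (Fin 3 → Bool) :=
  {y | (y 0 && y 1) = false ∧ (y 0 && y 2) = false ∧ (y 1 && y 2) = false}

/-- All points but `001`. -/
def G2 : Set (Fin 3 → Bool) := {y | y 0 = true ∨ y 1 = true ∨ y 2 = false}

/-- The first coordinate is `1` or the second one is `0`. -/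
def G3 : Set (Fin 3 → Bool) := {y | y 0 = true ∨ y 1 = false}

/-- The point `000`. -/
def p : Fin 3 → Bool := ![false, false, false]

/-- The point `100`. -/
def q : Fin 3 → Bool := ![true, false, false]

theorem bkr_subset_right (A B : Set (Fin 3 → Bool)) : bkr A B ⊆ B := by
  rintro x ⟨K, L, _, _, h2⟩
  exact h2 (self_mem_cyl x L)

theorem mem12 (y : Fin 3 → Bool) (h0 : y 0 = false) (h2 : y 2 = false) : y ∈ bkr G1 G2 := by
  by_cases h1 : y 1 = true
  · refine ⟨{0, 2}, {1}, by decide, ?_, ?_⟩
    · intro z hz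
      have e0 := hz 0 (by simp)
      have e2 := hz 2 (by simp)
      simp [G1, e0, e2, h0, h2]
    · intro z hz
      have e1 := hz 1 (by simp)
      simp [G2, e1, h1]
  · refine ⟨{0, 1}, {2}, by decide, ?_, ?_⟩
    · intro z hz
      have e0 := hz 0 (by simp)
      have e1 := hz 1 (by simp)
      simp [G1, e0, e1, h0, h1]
    · intro z hz
      have e2 := hz 2 (by simp)
      simp [G2, e2, h2]

theorem p_mem : p ∈ bkr (bkr G1 G2) G3 := by
  refine ⟨{0, 2}, {1}, by decide, ?_, ?_⟩
  · intro z hz
    exact mem12 z (hz 0 (by simp)) (hz 2 (by simp))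
  · intro z hz
    have e1 := hz 1 (by simp)
    simp [G3, e1, p]

theorem mem23 (y : Fin 3 → Bool) (h0 : y 0 = true) : y ∈ bkr G2 G3 := by
  by_cases h1 : y 1 = true
  · refine ⟨{1}, {0}, by decide, ?_, ?_⟩
    · intro z hz
      have e1 := hz 1 (by simp)
      simp [G2, e1, h1]
    · intro z hz
      have e0 := hz 0 (by simp)
      simp [G3, e0, h0]
  · refine ⟨{0}, {1}, by decide, ?_, ?_⟩
    · intro z hz
      have e0 := hz 0 (by simp)
      simp [G2, e0, h0]
    · intro z hz
      have e1 := hz 1 (by simp)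
      simp [G3, e1, h1]

theorem q_mem : q ∈ bkr G1 (bkr G2 G3) := by
  refine ⟨{1, 2}, {0}, by decide, ?_, ?_⟩
  · intro z hz
    have e1 := hz 1 (by simp)
    have e2 := hz 2 (by simp)
    simp [G1, e1, e2, q]
  · intro z hz
    exact mem23 z (hz 0 (by simp))

theorem p_notMem : p ∉ bkr G1 (bkr G2 G3) := by
  rw [mem_bkr_iff]
  rintro ⟨K, h1, h2⟩
  have n1 : (![false, true, false] : Fin 3 → Bool) ∉ bkr G2 G3 := by
    intro h
    have := bkr_subset_right _ _ h
    simp [G3] at this
  have n2 : (![false, false, true] : Fin 3 → Bool) ∉ bkr G2 G3 := by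
    intro h
    have := bkr_subset_left _ _ h
    simp [G2] at this
  have a1 : (![true, true, false] : Fin 3 → Bool) ∉ G1 := by simp [G1]
  have a2 : (![true, false, true] : Fin 3 → Bool) ∉ G1 := by simp [G1]
  have a3 : (![false, true, true] : Fin 3 → Bool) ∉ G1 := by simp [G1]
  have b1 : ¬ ∀ i ∈ Kᶜ, (![false, true, false] : Fin 3 → Bool) i = p i := fun h => n1 (h2 _ h)
  have b2 : ¬ ∀ i ∈ Kᶜ, (![false, false, true] : Fin 3 → Bool) i = p i := fun h => n2 (h2 _ h)
  have c1 : ¬ ∀ i ∈ K, (![true, true, false] : Fin 3 → Bool) i = p i := fun h => a1 (h1 _ h)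
  have c2 : ¬ ∀ i ∈ K, (![true, false, true] : Fin 3 → Bool) i = p i := fun h => a2 (h1 _ h)
  have c3 : ¬ ∀ i ∈ K, (![false, true, true] : Fin 3 → Bool) i = p i := fun h => a3 (h1 _ h)
  clear h1 h2 n1 n2 a1 a2 a3
  unfold p at b1 b2 c1 c2 c3
  revert K
  decide

/-- For every `r ≥ 3` (indeed for every `r`) there are a nonempty set `S`, a dimension `d ≥ 1` and
sets `A_1, …, A_r ⊆ S^d` (in Lean: `A 0, …, A (r - 1)`) such that different parenthesisations of
the word `A_1 ⋯ A_r` have different values. -/
theorem result : ∀ r : ℕ, 3 ≤ r → ∃ (S : Type) (_ : Nonempty S) (d : ℕ) (_ : 1 ≤ d)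
    (A : ℕ → Set (Fin d → S)), ∀ t t' : Bracketing, t.size = r → t'.size = r → t ≠ t' →
      val A t 0 ≠ val A t' 0 := by
  intro r hr
  classical
  let T := Fin r × Fin r × Fin r
  let g : T → ℕ → Set (Fin 3 → Bool) := fun τ m =>
    if τ.1 < τ.2.1 ∧ τ.2.1 < τ.2.2 then gad G1 G2 G3 τ.1 τ.2.1 τ.2.2 m else univ
  let e : T × Fin 3 ≃ Fin (Fintype.card (T × Fin 3)) := Fintype.equivFin _
  have hcard : 1 ≤ Fintype.card (T × Fin 3) := by
    have : Nonempty (T × Fin 3) := ⟨((⟨0, by omega⟩, ⟨0, by omega⟩, ⟨0, by omega⟩), 0)⟩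
    exact Fintype.card_pos
  -- the values of the gadgets
  have hval : ∀ (t : Bracketing) (τ : T), t.size = r → τ.1 < τ.2.1 → τ.2.1 < τ.2.2 →
      val (g τ) t 0 = if leftFirst t 0 τ.1 τ.2.1 τ.2.2 = true then bkr (bkr G1 G2) G3
        else bkr G1 (bkr G2 G3) := by
    intro t τ ht h1 h2
    have e1 : g τ = gad G1 G2 G3 τ.1 τ.2.1 τ.2.2 := by
      funext m
      simp only [g, h1, h2, and_self, if_true]
    rw [e1]
    exact (val_gad G1 G2 G3 (by exact_mod_cast h1) (by exact_mod_cast h2) t
      0).2.2.2.2.2.2.1 (Nat.zero_le _) (by have := τ.2.2.2; omega)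
  have huniv : ∀ (t : Bracketing) (k : ℕ),
      val (fun _ : ℕ => (univ : Set (Fin 3 → Bool))) t k = univ := by
    intro t
    induction t with
    | leaf => intro k; rfl
    | node l r ihl ihr =>
      intro k
      simp only [val]
      rw [ihl, ihr, bkr_univ]
  have hne : ∀ (t : Bracketing) (τ : T), t.size = r → (val (g τ) t 0).Nonempty := by
    intro t τ ht
    by_cases h : τ.1 < τ.2.1 ∧ τ.2.1 < τ.2.2
    · rw [hval t τ ht h.1 h.2]
      split_ifs
      · exact ⟨p, p_mem⟩
      · exact ⟨q, q_mem⟩
    · have : g τ = fun _ => univ := by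
        funext m
        simp only [g, h, if_false]
      rw [this, huniv]
      exact univ_nonempty
  refine ⟨Bool, inferInstance, _, hcard, fun m => ren e (prodSet fun τ => g τ m), ?_⟩
  -- it suffices to separate with `leftFirst t = true`, `leftFirst t' = false`
  have main : ∀ t t' : Bracketing, t.size = r → t'.size = r → ∀ τ : T, τ.1 < τ.2.1 →
      τ.2.1 < τ.2.2 → leftFirst t 0 τ.1 τ.2.1 τ.2.2 = true →
      leftFirst t' 0 τ.1 τ.2.1 τ.2.2 = false →
      val (fun m => ren e (prodSet fun τ => g τ m)) t 0 ≠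
        val (fun m => ren e (prodSet fun τ => g τ m)) t' 0 := by
    intro t t' ht ht' τ h1 h2 h3 h4 h
    rw [val_ren, val_ren, val_prodSet, val_prodSet] at h
    have h5 := ren_injective e h
    choose z hz using fun σ => hne t σ ht
    let x : T × Fin 3 → Bool := fun s => if s.1 = τ then p s.2 else z s.1 s.2
    have hx : x ∈ prodSet fun σ => val (g σ) t 0 := by
      intro σ
      change (fun i => x (σ, i)) ∈ val (g σ) t 0
      by_cases hσ : σ = τ
      · subst hσ
        rw [hval t σ ht h1 h2, if_pos h3]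
        simp only [x, if_true]
        exact p_mem
      · simp only [x, hσ, if_false]
        exact hz σ
    rw [h5] at hx
    have h6 : (fun i => x (τ, i)) ∈ val (g τ) t' 0 := hx τ
    rw [hval t' τ ht' h1 h2, if_neg (by rw [h4]; exact Bool.false_ne_true)] at h6
    simp only [x, if_true] at h6
    exact p_notMem h6
  intro t t' ht ht' hne'
  obtain ⟨a, b, c, _, h1, h2, h3, h4⟩ := exists_triple t t' 0 (ht.trans ht'.symm) hne'
  rw [ht, zero_add] at h3
  let τ : T := (⟨a, by omega⟩, ⟨b, by omega⟩, ⟨c, h3⟩)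
  have e1 : τ.1 < τ.2.1 := h1
  have e2 : τ.2.1 < τ.2.2 := h2
  by_cases h5 : leftFirst t 0 a b c = true
  · have h6 : leftFirst t' 0 a b c = false := by
      rw [h5] at h4
      simpa using h4.symm
    exact main t t' ht ht' τ e1 e2 h5 h6
  · have h5' : leftFirst t 0 a b c = false := by simpa using h5
    have h6 : leftFirst t' 0 a b c = true := by
      rw [h5'] at h4
      simpa using h4.symm
    exact (main t' t ht' ht τ e1 e2 h6 h5').symm

end Pool.Agent.Results.MP_890654_pr.AllBracketingsDistinct
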